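import Pool.Agent.Lib.MP_afd523_nt.Coset

/-!
# MP_afd523_nt: non-vanishing of `L(1/2, χ)` in thin cosets of characters of prime modulus

There is an absolute constant `η > 0` such that for every `ε > 0` and every prime `q ≥ q₀(ε)`:
for every subgroup `H` of `(ℤ/q)ˣ` with `|H| ≤ q^(1/3 - ε)` and every character `ψ` modulo `q`, at
least `η (q - 1)/|H|` of the (exactly `(q - 1)/|H|`) characters `χ` modulo `q` with `χ = ψ` on `H`
satisfy `L(1/2, χ) ≠ 0`.
-/

namespace Pool.Agent.Results.MP_afd523_nt.CosetNonvanishing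

open Pool.Agent.NV

theorem _root_.Pool.Agent.Results.MP_afd523_nt.CosetNonvanishing.result :
    ∃ η : ℝ, 0 < η ∧ ∀ ε : ℝ, 0 < ε → ∃ q₀ : ℕ, ∀ (q : ℕ) [NeZero q], q.Prime → q₀ ≤ q →
      ∀ (H : Subgroup (ZMod q)ˣ) (ψ : DirichletCharacter ℂ q),
        (Nat.card H : ℝ) ≤ (q : ℝ) ^ (1 / 3 - ε) →
        η * (((q : ℝ) - 1) / Nat.card H) ≤
          Nat.card {χ : DirichletCharacter ℂ q // (∀ u ∈ H, χ (u : ZMod q) = ψ (u : ZMod q)) ∧
            DirichletCharacter.LFunction χ (1 / 2) ≠ 0} := by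
  classical
  obtain ⟨η, hη, h₁⟩ := coset_theorem
  refine ⟨η, hη, fun ε hε => ?_⟩
  obtain ⟨q₁, h₁⟩ := h₁ ε hε
  refine ⟨q₁, fun q _ hq hqq H ψ hH => ?_⟩
  have h := h₁ q H ψ hq hqq hH
  have hc := card_cos hq H ψ
  have hH0 : (0 : ℝ) < Nat.card H := by exact_mod_cast Nat.card_pos
  have hq' : ((q : ℝ) - 1) / Nat.card H = (cos H ψ).card := by
    rw [← hc, mul_div_assoc, div_self hH0.ne', mul_one]
  have hcard : Nat.card {χ : DirichletCharacter ℂ q //
      (∀ u ∈ H, χ (u : ZMod q) = ψ (u : ZMod q)) ∧ DirichletCharacter.LFunction χ (1 / 2) ≠ 0} =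
      ((cos H ψ).filter (fun χ => DirichletCharacter.LFunction χ (1 / 2) ≠ 0)).card := by
    rw [Nat.card_eq_fintype_card, Fintype.card_subtype]
    congr 1
    ext χ
    simp only [Finset.mem_filter, Finset.mem_univ, true_and, Coset_mem_cos]
  rw [hq', hcard]
  exact h

end Pool.Agent.Results.MP_afd523_nt.CosetNonvanishing
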