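import Pool.Agent.Lib.MP_afd523_nt.Order

/-!
# MP_afd523_nt: non-vanishing of `L(1/2, χ)` for characters of prime modulus and given order

There is an absolute constant `η > 0` such that for every `ε > 0` and every prime `q ≥ q₀(ε)`:
for every divisor `m ≥ q^(2/3 + ε)` of `q - 1` at least `η φ(m)` of the (exactly `φ(m)`) characters
modulo `q` of exact order `m` (the Galois orbit of any of them) satisfy `L(1/2, χ) ≠ 0`.
-/

namespace Pool.Agent.Results.MP_afd523_nt.OrderNonvanishing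

open Pool.Agent.NV

theorem _root_.Pool.Agent.Results.MP_afd523_nt.OrderNonvanishing.result :
    ∃ η : ℝ, 0 < η ∧ ∀ ε : ℝ, 0 < ε → ∃ q₀ : ℕ, ∀ (q : ℕ) [NeZero q], q.Prime → q₀ ≤ q →
      ∀ m : ℕ, m ∣ q - 1 → (q : ℝ) ^ (2 / 3 + ε) ≤ m →
        η * (Nat.totient m : ℝ) ≤
          Nat.card {χ : DirichletCharacter ℂ q // orderOf χ = m ∧
            DirichletCharacter.LFunction χ (1 / 2) ≠ 0} := by
  obtain ⟨η, hη, h⟩ := order_theorem
  refine ⟨η, hη, fun ε hε => ?_⟩
  obtain ⟨q₂, h₂⟩ := h ε hε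
  exact ⟨q₂, fun q _ hq hqq m hm hmq => h₂ q hq hqq m hm hmq⟩

end Pool.Agent.Results.MP_afd523_nt.OrderNonvanishing
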