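import Pool.Agent.Lib.MP_afd523_nt_P.PAll

/-!
# MP_afd523_nt: a positive proportion of `L(1/2, χ) ≠ 0` in thin cosets modulo prime powers

For every `ε > 0` there are `η > 0` and `k₀` such that for all primes `p` (the prime 2 included),
all `k ≥ k₀`, all `j < k` with `j ≥ (1/3 + ε) k`, all primitive characters `ψ` modulo `p ^ k` and
each sign `s = ±1`: at least `η φ(p ^ j)` of the characters `χ` modulo `p ^ j` satisfy
`χ(-1) = s` and `L(1/2, ψ χ) ≠ 0`.
-/

namespace Pool.Agent.Results.MP_afd523_nt.PositiveProportion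

theorem _root_.Pool.Agent.Results.MP_afd523_nt.PositiveProportion.result :
    ∀ ε : ℝ, 0 < ε → ∃ η : ℝ, 0 < η ∧ ∃ k₀ : ℕ, ∀ (p k j : ℕ) [Fact p.Prime], k₀ ≤ k →
      (1 / 3 + ε) * k ≤ j → j < k → ∀ (hd : p ^ j ∣ p ^ k)
      (ψ : DirichletCharacter ℂ (p ^ k)), ψ.IsPrimitive → ∀ s : ℂ, s = 1 ∨ s = -1 →
        η * (Nat.totient (p ^ j) : ℝ) ≤
          Nat.card {χ : DirichletCharacter ℂ (p ^ j) // χ (-1) = s ∧
            DirichletCharacter.LFunction
              (ψ * DirichletCharacter.changeLevel hd χ) (1 / 2) ≠ 0} :=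
  Pool.Agent.NP.all

end Pool.Agent.Results.MP_afd523_nt.PositiveProportion
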