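import Pool.Agent.Lib.MP_afd523_nt_W.WMain

/-!
# MP_afd523_nt: non-vanishing of `L(1/2, χ)` in thin cosets of characters modulo prime powers

For every `ε > 0` there is `k₀` such that for all odd primes `p`, all `k ≥ k₀`, all
`j ≤ k` with `j ≥ (1/6 + ε) k` and all primitive characters `ψ` modulo `q = p ^ k`: at least
`p ^ j / q ^ (1/6 + ε)` of the characters `ξ` modulo `p ^ j` satisfy `L(1/2, ψ ξ) ≠ 0`.
-/

namespace Pool.Agent.Results.MP_afd523_nt.WeylCosets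

theorem _root_.Pool.Agent.Results.MP_afd523_nt.WeylCosets.result :
    ∀ ε : ℝ, 0 < ε → ∃ k₀ : ℕ, ∀ (p k : ℕ) [Fact p.Prime], p ≠ 2 → k₀ ≤ k →
      ∀ (j : ℕ) (hjk : j ≤ k), (1 / 6 + ε) * k ≤ j →
      ∀ ψ : DirichletCharacter ℂ (p ^ k), ψ.IsPrimitive →
        (p : ℝ) ^ j / ((p : ℝ) ^ k) ^ (1 / 6 + ε) ≤
          Nat.card {ξ : DirichletCharacter ℂ (p ^ j) //
            DirichletCharacter.LFunction
              (ψ * DirichletCharacter.changeLevel (pow_dvd_pow p hjk) ξ) (1 / 2) ≠ 0} := by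
  intro ε hε
  obtain ⟨k₀, h⟩ := Pool.Agent.NVW.count hε
  exact ⟨k₀, fun p k _ hp hk j hjk hj ψ hψ => h p k hp hk j hjk hj ψ hψ⟩

end Pool.Agent.Results.MP_afd523_nt.WeylCosets
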